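import Pool.Agent.Helper28.IV.Spec

/-! MP_57632f_nt, part B: necessity of the covering condition. -/

set_option autoImplicit false

namespace Pool.Agent.Helper9.IV.B

open Filter Topology
open Pool.Agent.Helper84.Places Pool.Agent.Helper28.IV

open Classical in
/-- the number of the elements of `Z` in `[s, t)` -/
noncomputable def cZ (Z : Set ℕ) (s t : ℕ) : ℕ := ((Finset.Ico s t).filter fun n => n ∈ Z).card

open Classical in
/-- the changed sequence -/
noncomputable def chg {b : ℕ} (Z : Set ℕ) (e : Fin b) (y : ℕ → Fin b) (n : ℕ) : Fin b :=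
  if n ∈ Z then e else y n

/-- two sequences which agree outside `Z` -/
theorem cI_le {b : ℕ} (Z : Set ℕ) (a a' : ℕ → Fin b) (h : ∀ n, n ∉ Z → a n = a' n) (s t : ℕ)
    {k : ℕ} (w : Fin k → Fin b) : cI a s t w ≤ cI a' s t w + (k + k * cZ Z s t) := by
  classical
  unfold cI cZ
  have hsub : ((Finset.Ico s t).filter fun i => wd a k i = w) ⊆
      ((Finset.Ico s t).filter fun i => wd a' k i = w) ∪ (Finset.Ico (t - k) t ∪
        (Finset.range k).biUnion fun l =>
          ((Finset.Ico s t).filter fun n => n ∈ Z).image (· - l)) := by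
    intro i hi
    rw [Finset.mem_filter, Finset.mem_Ico] at hi
    rw [Finset.mem_union, Finset.mem_union, Finset.mem_filter, Finset.mem_Ico, Finset.mem_Ico,
      Finset.mem_biUnion]
    by_cases h1 : t - k ≤ i
    · exact Or.inr (Or.inl ⟨h1, hi.1.2⟩)
    by_cases h2 : ∃ l < k, i + l ∈ Z
    · obtain ⟨l, hl, hlZ⟩ := h2
      right; right
      refine ⟨l, Finset.mem_range.2 hl, ?_⟩
      rw [Finset.mem_image]
      refine ⟨i + l, ?_, by omega⟩
      rw [Finset.mem_filter, Finset.mem_Ico]
      exact ⟨by omega, hlZ⟩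
    · left
      push Not at h2
      refine ⟨hi.1, ?_⟩
      rw [← hi.2]
      funext l
      exact (h _ (h2 l l.2)).symm
  refine (Finset.card_le_card hsub).trans ((Finset.card_union_le _ _).trans ?_)
  apply Nat.add_le_add_left
  refine (Finset.card_union_le _ _).trans (Nat.add_le_add ?_ ?_)
  · rw [Nat.card_Ico]; omega
  · refine Finset.card_biUnion_le.trans ?_
    refine (Finset.sum_le_sum fun l _ => Finset.card_image_le).trans ?_
    rw [Finset.sum_const, Finset.card_range, smul_eq_mul]

/-- the union of the sets of uncovered places -/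
def ZZ (u v N : ℕ → ℕ) : Set ℕ :=
  {n | ∃ i, n < N i ∧ ∀ j, v j ≤ (i + 2) * N i → ¬ (u j ≤ n ∧ n < v j)}

theorem cZ_le {u v N : ℕ → ℕ} (hN : StrictMono N) (i0 j : ℕ) :
    (i0 + 1) * cZ (ZZ u v N) (u j) (v j) ≤ (v j - u j) + (i0 + 1) * N i0 := by
  classical
  unfold cZ
  set T := (Finset.Ico (u j) (v j)).filter fun n => n ∈ ZZ u v N with hT
  by_cases h : T ⊆ Finset.range (N i0)
  · have h1 : T.card ≤ N i0 := by
      have := Finset.card_le_card h
      rwa [Finset.card_range] at this
    have h2 := Nat.mul_le_mul_left (i0 + 1) h1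
    omega
  · obtain ⟨n0, hn0, hn0'⟩ := Finset.not_subset.1 h
    rw [Finset.mem_range, not_lt] at hn0'
    have hne : T.Nonempty := ⟨n0, hn0⟩
    set n := T.max' hne with hn
    have hnT : n ∈ T := T.max'_mem hne
    have hn0n : n0 ≤ n := T.le_max' _ hn0
    rw [hT, Finset.mem_filter, Finset.mem_Ico] at hnT
    obtain ⟨⟨hu, hv⟩, i, hi1, hi2⟩ := hnT
    have h1 : (i + 2) * N i < v j := by
      by_contra hcon
      exact hi2 j (not_lt.1 hcon) ⟨hu, hv⟩
    have h2 : i0 < i := by
      rw [← hN.lt_iff_lt]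
      omega
    have h3 : T.card ≤ N i := by
      have h4 : T ⊆ Finset.range (N i) := by
        intro x hx
        rw [Finset.mem_range]
        exact (T.le_max' _ hx).trans_lt hi1
      have := Finset.card_le_card h4
      rwa [Finset.card_range] at this
    have h4 : (i0 + 1) * T.card ≤ (i + 1) * N i := Nat.mul_le_mul (by omega) h3
    have h5 : (i + 2) * N i = (i + 1) * N i + N i := by ring
    omega

theorem cS_one {b : ℕ} (a : ℕ → Fin b) (N : ℕ) (e : Fin b) [DecidablePred fun n => a n = e] :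
    cS Set.univ a N (fun _ : Fin 1 => e) = ((Finset.range N).filter fun n => a n = e).card := by
  classical
  unfold cS
  refine congrArg Finset.card (Finset.ext fun n => ?_)
  simp only [Finset.mem_filter]
  refine and_congr_right fun _ => ?_
  constructor
  · rintro ⟨-, h⟩
    exact congrFun h 0
  · intro h
    refine ⟨Set.mem_univ _, funext fun l => ?_⟩
    have hl : (l : ℕ) = 0 := by omega
    unfold wd
    rw [hl]
    exact h

/-- the changed sequence contains the digit more often -/
theorem count1 {b : ℕ} (Z : Set ℕ) (y : ℕ → Fin b) (e : Fin b) (N : ℕ) (U : Finset ℕ)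
    (hU : ∀ n ∈ U, n < N ∧ n ∈ Z) [DecidablePred fun n => y n ≠ e] :
    cS Set.univ y N (fun _ : Fin 1 => e) + (U.filter fun n => y n ≠ e).card ≤
      cS Set.univ (chg Z e y) N (fun _ : Fin 1 => e) := by
  classical
  rw [cS_one, cS_one, ← Finset.card_union_of_disjoint]
  · apply Finset.card_le_card
    intro n hn
    rw [Finset.mem_union, Finset.mem_filter, Finset.mem_filter] at hn
    rw [Finset.mem_filter]
    rcases hn with ⟨h1, h2⟩ | ⟨h1, h2⟩
    · refine ⟨h1, ?_⟩
      unfold chg
      split_ifs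
      · rfl
      · exact h2
    · obtain ⟨h3, h4⟩ := hU n h1
      refine ⟨Finset.mem_range.2 h3, ?_⟩
      unfold chg
      rw [if_pos h4]
  · rw [Finset.disjoint_left]
    intro n h1 h2
    rw [Finset.mem_filter] at h1 h2
    exact h2.2 h1.2

theorem count {b : ℕ} (u v N : ℕ → ℕ) (y : ℕ → Fin b) (e0 e1 : Fin b) (he : e0 ≠ e1) (i : ℕ) :
    cS Set.univ y (N i) (fun _ : Fin 1 => e0) + cS Set.univ y (N i) (fun _ : Fin 1 => e1) +
      unc u v (i + 2) (N i) ≤
    cS Set.univ (chg (ZZ u v N) e0 y) (N i) (fun _ : Fin 1 => e0) +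
      cS Set.univ (chg (ZZ u v N) e1 y) (N i) (fun _ : Fin 1 => e1) := by
  classical
  unfold unc
  set U := (Finset.range (N i)).filter fun n => ∀ j, v j ≤ (i + 2) * N i → ¬ (u j ≤ n ∧ n < v j)
    with hU
  have hU' : ∀ n ∈ U, n < N i ∧ n ∈ ZZ u v N := by
    intro n hn
    rw [hU, Finset.mem_filter, Finset.mem_range] at hn
    exact ⟨hn.1, i, hn.1, hn.2⟩
  have h0 := count1 (ZZ u v N) y e0 (N i) U hU'
  have h1 := count1 (ZZ u v N) y e1 (N i) U hU'
  have h2 : U.card ≤ (U.filter fun n => y n ≠ e0).card + (U.filter fun n => y n ≠ e1).card := by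
    refine le_trans (Finset.card_le_card ?_) (Finset.card_union_le _ _)
    intro n hn
    refine Finset.mem_union.2 ?_
    by_cases h : y n = e0
    · right
      exact Finset.mem_filter.2 ⟨hn, fun h' => he (h.symm.trans h')⟩
    · left
      exact Finset.mem_filter.2 ⟨hn, h⟩
  omega

theorem norm_chg {b : ℕ} {u v N : ℕ → ℕ} {y : ℕ → Fin b} (hN : StrictMono N)
    (huv : ∀ j, u j < v j) (hL : Tendsto (fun j => v j - u j) atTop atTop)
    (hy : Norm u v y) (e : Fin b) : Norm u v (chg (ZZ u v N) e y) := by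
  classical
  intro k hk w
  have h1 := hy k hk w
  set x := chg (ZZ u v N) e y with hx
  have hag : ∀ n, n ∉ ZZ u v N → x n = y n := by
    intro n hn
    rw [hx]
    unfold chg
    rw [if_neg hn]
  have h2 : Tendsto (fun j => (cI x (u j) (v j) w : ℝ) / ((v j : ℝ) - u j) -
      (cI y (u j) (v j) w : ℝ) / ((v j : ℝ) - u j)) atTop (𝓝 0) := by
    rw [Metric.tendsto_nhds]
    intro η hη
    obtain ⟨i0, hi0⟩ := exists_nat_gt (2 * (k : ℝ) / η)
    obtain ⟨M, hM⟩ := exists_nat_gt (2 * ((k : ℝ) + k * N i0) / η)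
    filter_upwards [hL.eventually_ge_atTop M] with j hj
    have hD := cZ_le (u := u) (v := v) hN i0 j
    set D := cZ (ZZ u v N) (u j) (v j) with hDdef
    have hLj : ((v j - u j : ℕ) : ℝ) = (v j : ℝ) - u j := by
      rw [Nat.cast_sub (huv j).le]
    set L : ℝ := (v j : ℝ) - u j with hLdef
    have hL0 : 0 < L := by
      have : (u j : ℝ) < v j := by exact_mod_cast huv j
      rw [hLdef]
      linarith
    have hML : (M : ℝ) ≤ L := by
      rw [← hLj]
      exact_mod_cast hj
    have hD' : ((i0 : ℝ) + 1) * D ≤ L + ((i0 : ℝ) + 1) * N i0 := by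
      rw [← hLj]
      exact_mod_cast hD
    have h3 : (cI x (u j) (v j) w : ℝ) ≤ cI y (u j) (v j) w + (k + k * D) := by
      exact_mod_cast cI_le (ZZ u v N) x y hag (u j) (v j) w
    have h4 : (cI y (u j) (v j) w : ℝ) ≤ cI x (u j) (v j) w + (k + k * D) := by
      exact_mod_cast cI_le (ZZ u v N) y x (fun n hn => (hag n hn).symm) (u j) (v j) w
    have hk0 : (0 : ℝ) < k := by exact_mod_cast hk
    rw [div_lt_iff₀ hη] at hi0 hM
    have hi1 : (0 : ℝ) < (i0 : ℝ) + 1 := by positivity
    have h5 : (k : ℝ) + k * D < η * L := by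
      have h6 : (k : ℝ) * D ≤ k * N i0 + k * L / ((i0 : ℝ) + 1) := by
        have h7 : (D : ℝ) ≤ N i0 + L / ((i0 : ℝ) + 1) := by
          rw [← sub_le_iff_le_add', le_div_iff₀ hi1]
          nlinarith
        calc (k : ℝ) * D ≤ k * (N i0 + L / ((i0 : ℝ) + 1)) :=
              mul_le_mul_of_nonneg_left h7 hk0.le
          _ = _ := by ring
      have h8 : (k : ℝ) * L / ((i0 : ℝ) + 1) < η / 2 * L := by
        rw [div_lt_iff₀ hi1]
        have h9 : (k : ℝ) < η / 2 * ((i0 : ℝ) + 1) := by nlinarith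
        nlinarith
      have h9 : (k : ℝ) + k * N i0 < η / 2 * L := by nlinarith
      linarith
    rw [dist_zero_right, Real.norm_eq_abs, ← sub_div, abs_div, abs_of_pos hL0, div_lt_iff₀ hL0]
    refine lt_of_le_of_lt ?_ h5
    rw [abs_le]
    constructor <;> linarith
  have h3 := h2.add h1
  rw [zero_add] at h3
  exact h3.congr fun n => by ring

theorem main : S_B := by
  classical
  intro b _ u v y hb huv hL hcov hy
  by_contra hcon
  push Not at hcon
  unfold Cov at hcov
  push Not at hcov
  obtain ⟨ε, hε, hC⟩ := hcov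
  obtain ⟨N, hN, hN2⟩ := exists_seq (p := fun i n => ε * n < unc u v (i + 2) n) (by
    intro i M
    obtain ⟨n, h1, h2⟩ := ((hC (i + 2)).and_eventually (eventually_ge_atTop M)).exists
    exact ⟨n, h2, h1⟩)
  have hpos : ∀ i, (0 : ℝ) < N i := by
    intro i
    rcases Nat.eq_zero_or_pos (N i) with h | h
    · have h1 := hN2 i
      rw [h] at h1
      unfold unc at h1
      simp at h1
    · exact_mod_cast h
  let e0 : Fin b := ⟨0, by omega⟩
  let e1 : Fin b := ⟨1, by omega⟩
  have he : e0 ≠ e1 := by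
    intro h
    have := congrArg Fin.val h
    simp [e0, e1] at this
  have hNt : Tendsto N atTop atTop := hN.tendsto_atTop
  have t1 := (hcon y hy 1 (fun _ => e0) one_pos).comp hNt
  have t2 := (hcon y hy 1 (fun _ => e1) one_pos).comp hNt
  have t3 := (hcon _ (norm_chg hN huv hL hy e0) 1 (fun _ => e0) one_pos).comp hNt
  have t4 := (hcon _ (norm_chg hN huv hL hy e1) 1 (fun _ => e1) one_pos).comp hNt
  have t5 := (t3.add t4).sub (t1.add t2)
  rw [sub_self] at t5
  have h6 : ε ≤ 0 := by
    refine ge_of_tendsto t5 (Eventually.of_forall fun i => ?_)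
    simp only [Function.comp]
    rw [← add_div, ← add_div, ← sub_div, le_div_iff₀ (hpos i)]
    have h7 := count u v N y e0 e1 he i
    have h8 := hN2 i
    have h9 : (cS Set.univ y (N i) (fun _ : Fin 1 => e0) : ℝ) +
        cS Set.univ y (N i) (fun _ : Fin 1 => e1) + unc u v (i + 2) (N i) ≤
        cS Set.univ (chg (ZZ u v N) e0 y) (N i) (fun _ : Fin 1 => e0) +
        cS Set.univ (chg (ZZ u v N) e1 y) (N i) (fun _ : Fin 1 => e1) := by
      exact_mod_cast h7
    linarith
  linarith

end Pool.Agent.Helper9.IV.B
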